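import Pool.Agent.Helper13.JS.St

/-!
# Project JS, module EB (the base)
-/

set_option autoImplicit false

namespace Pool.Agent.Helper36.JS

open Finset ArithmeticFunction Pool.Agent.Helper13.JS

theorem theta_low : ∃ c : ℝ, 0 < c ∧ ∀ n : ℕ, 2 ≤ n → c * n ≤ Chebyshev.theta n := by
  have hl2 : 0 < Real.log 2 := Real.log_pos (by norm_num)
  have hl2' : 0.69 < Real.log 2 := by
    have := Real.log_two_gt_d9
    linarith
  have hl2'' : Real.log 2 < 1 := by
    have := Real.log_two_lt_d9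
    linarith
  refine ⟨Real.log 2 / 38 ^ 4, by positivity, fun n hn => ?_⟩
  have hn0 : (2 : ℝ) ≤ n := by exact_mod_cast hn
  by_cases h : (38 : ℝ) ^ 4 ≤ n
  · obtain ⟨s, hs0, hs⟩ : ∃ s : ℝ, 0 ≤ s ∧ s ^ 4 = n := ⟨√(√(n : ℝ)), by positivity, by
      have : (√(√(n : ℝ))) ^ 4 = ((√(√(n : ℝ))) ^ 2) ^ 2 := by ring
      rw [this, Real.sq_sqrt (by positivity), Real.sq_sqrt (by positivity)]⟩
    have hs38 : 38 ≤ s := by
      by_contra hc
      push Not at hc
      have := pow_lt_pow_left₀ hc hs0 (by norm_num : 4 ≠ 0)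
      linarith
    have hs1 : 0 < s := by linarith
    have hlog : Real.log n ≤ 4 * s := by
      rw [← hs, Real.log_pow]
      have := Real.log_le_sub_one_of_pos hs1
      push_cast
      linarith
    have hsq : √(n : ℝ) = s ^ 2 := by
      rw [← hs, show s ^ 4 = (s ^ 2) ^ 2 by ring, Real.sqrt_sq (by positivity)]
    have hlog1 : Real.log ((n : ℝ) + 1) ≤ 4 * s + 1 := by
      have h1 : Real.log ((n : ℝ) + 1) ≤ Real.log (2 * n) :=
        Real.log_le_log (by positivity) (by linarith)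
      rw [Real.log_mul (by norm_num) (by positivity)] at h1
      linarith
    have h1 := Chebyshev.theta_ge n
    rw [hsq] at h1
    have h2 : 2 * s ^ 2 * Real.log n ≤ 2 * s ^ 2 * (4 * s) := by gcongr
    have h3 : Real.log 2 / 38 ^ 4 * (n : ℝ) ≤ n * Real.log 2 / 2 := by
      rw [div_mul_eq_mul_div]
      rw [div_le_div_iff₀ (by positivity) (by positivity)]
      nlinarith
    have h4 : 4 * s + 1 + 8 * s ^ 3 ≤ n * Real.log 2 / 2 := by
      rw [← hs]
      have h5 : 13 * s ^ 3 ≤ s ^ 4 * Real.log 2 / 2 := by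
        have h6 : 26 ≤ s * Real.log 2 := by nlinarith
        have h7 : 0 < s ^ 3 := by positivity
        have h8 : s ^ 4 * Real.log 2 / 2 = s ^ 3 * (s * Real.log 2) / 2 := by ring
        rw [h8]
        nlinarith
      have h9 : 4 * s + 1 ≤ 5 * s ^ 3 := by nlinarith [sq_nonneg s, mul_pos hs1 hs1]
      linarith
    have h10 : 2 * s ^ 2 * (4 * s) = 8 * s ^ 3 := by ring
    linarith
  · push Not at h
    have h1 : Real.log 2 / 38 ^ 4 * (n : ℝ) ≤ Real.log 2 := by
      rw [div_mul_eq_mul_div, div_le_iff₀ (by positivity)]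
      nlinarith
    have h2 : Real.log 2 = Chebyshev.theta 2 := by
      rw [Chebyshev.theta_eq_log_primorial]
      have : primorial ⌊(2 : ℝ)⌋₊ = 2 := by
        rw [show (2 : ℝ) = ((2 : ℕ) : ℝ) by norm_num, Nat.floor_natCast]
        rfl
      rw [this]
      norm_num
    rw [h2] at h1 ⊢
    rw [← h2] at h1 ⊢
    exact h1.trans (h2.le.trans (Chebyshev.theta_mono hn0))

/-- the integers `≤ N` free of `E` -/
noncomputable def Ae (E : Finset ℕ) (N : ℕ) : Finset ℕ := by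
  classical exact (Icc 1 N).filter (fun n => ∀ p ∈ E, ¬ p ∣ n)

theorem mem_Ae (E : Finset ℕ) (N n : ℕ) : n ∈ Ae E N ↔ (1 ≤ n ∧ n ≤ N) ∧ ∀ p ∈ E, ¬ p ∣ n := by
  classical
  unfold Ae
  rw [Finset.mem_filter, Finset.mem_Icc]

theorem Fr_eq (E : Finset ℕ) (N : ℕ) : Fr E N = (Ae E N).card := by
  classical
  unfold Fr Ae
  congr

theorem Ls_eq (E : Finset ℕ) (N : ℕ) : Ls E N = ∑ n ∈ Ae E N, 1 / (n : ℝ) := by
  classical
  unfold Ls Ae
  congr

theorem theta_nat (n : ℕ) : Chebyshev.theta n = ∑ q ∈ (Icc 1 n).filter Nat.Prime, Real.log q := by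
  rw [Chebyshev.theta_eq_sum_primesLE_log]
  refine Finset.sum_congr ?_ (fun _ _ => rfl)
  ext q
  rw [Nat.mem_primesLE, Finset.mem_filter, Finset.mem_Icc]
  exact ⟨fun h => ⟨⟨h.2.one_lt.le, h.1⟩, h.2⟩, fun h => ⟨h.1.2, h.2⟩⟩

/-- lower bound of the sum of logarithms -/
theorem low1 (E : Finset ℕ) (N : ℕ) (hE : ∀ p ∈ E, p.Prime) :
    ∑ q ∈ ((Icc 1 N).filter Nat.Prime).filter (· ∉ E), Real.log q * Fr E (N / q) ≤
      Fr E N * Real.log N := by
  classical
  have h1 : ∀ n ∈ Ae E N, ∑ q ∈ (((Icc 1 N).filter Nat.Prime).filter (· ∉ E)).filter (· ∣ n),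
      Real.log q ≤ Real.log N := by
    intro n hn
    rw [mem_Ae] at hn
    have hsub : (((Icc 1 N).filter Nat.Prime).filter (· ∉ E)).filter (· ∣ n) ⊆ n.primeFactors := by
      intro q hq
      simp only [Finset.mem_filter] at hq
      rw [Nat.mem_primeFactors]
      exact ⟨hq.1.1.2, hq.2, by omega⟩
    calc ∑ q ∈ (((Icc 1 N).filter Nat.Prime).filter (· ∉ E)).filter (· ∣ n), Real.log q
        ≤ ∑ q ∈ n.primeFactors, Real.log q :=
          Finset.sum_le_sum_of_subset_of_nonneg hsub (fun q _ _ => Real.log_natCast_nonneg q)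
      _ = Real.log ((∏ q ∈ n.primeFactors, q : ℕ) : ℝ) := by
          rw [Nat.cast_prod, Real.log_prod]
          intro q hq
          exact_mod_cast (Nat.prime_of_mem_primeFactors hq).ne_zero
      _ ≤ Real.log N := by
          apply Real.log_le_log
          · exact_mod_cast Finset.prod_pos fun q hq => (Nat.prime_of_mem_primeFactors hq).pos
          · have h2 := Nat.le_of_dvd (by omega) (Nat.prod_primeFactors_dvd n)
            exact_mod_cast h2.trans hn.1.2
  have h2 : ∑ q ∈ ((Icc 1 N).filter Nat.Prime).filter (· ∉ E),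
      Real.log q * ((Ae E N).filter (q ∣ ·)).card ≤ Fr E N * Real.log N := by
    calc ∑ q ∈ ((Icc 1 N).filter Nat.Prime).filter (· ∉ E),
          Real.log q * ((Ae E N).filter (q ∣ ·)).card
        = ∑ q ∈ ((Icc 1 N).filter Nat.Prime).filter (· ∉ E), ∑ n ∈ Ae E N,
            (if q ∣ n then Real.log q else 0) := by
          refine Finset.sum_congr rfl fun q _ => ?_
          rw [← Finset.sum_filter, Finset.sum_const, nsmul_eq_mul, mul_comm]
      _ = ∑ n ∈ Ae E N, ∑ q ∈ ((Icc 1 N).filter Nat.Prime).filter (· ∉ E),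
            (if q ∣ n then Real.log q else 0) := Finset.sum_comm
      _ ≤ ∑ n ∈ Ae E N, Real.log N := by
          refine Finset.sum_le_sum fun n hn => ?_
          rw [← Finset.sum_filter]
          exact h1 n hn
      _ = Fr E N * Real.log N := by
          rw [Finset.sum_const, nsmul_eq_mul, Fr_eq]
  refine le_trans (Finset.sum_le_sum fun q hq => ?_) h2
  rw [Finset.mem_filter, Finset.mem_filter, Finset.mem_Icc] at hq
  have hq1 : q.Prime := hq.1.2
  refine mul_le_mul_of_nonneg_left ?_ (Real.log_natCast_nonneg q)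
  rw [Fr_eq, Nat.cast_le]
  refine Finset.card_le_card_of_injOn (fun m => q * m) (fun m hm => ?_) (fun a _ b _ h => ?_)
  · rw [Finset.mem_coe, mem_Ae] at hm
    rw [Finset.mem_coe, Finset.mem_filter, mem_Ae]
    refine ⟨⟨⟨Nat.mul_pos hq1.pos hm.1.1, ?_⟩, fun p hp hpd => ?_⟩, dvd_mul_right _ _⟩
    · calc q * m ≤ q * (N / q) := Nat.mul_le_mul_left _ hm.1.2
        _ ≤ N := Nat.mul_div_le _ _
    · rcases (hE p hp).dvd_mul.1 hpd with h | h
      · exact hq.2 (((Nat.prime_dvd_prime_iff_eq (hE p hp) hq1).1 h) ▸ hp)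
      · exact hm.2 p hp h
  · exact Nat.eq_of_mul_eq_mul_left hq1.pos h

theorem low2 (E : Finset ℕ) (N : ℕ) :
    ∑ m ∈ Ae E (N / 2), Chebyshev.theta ((N / m : ℕ) : ℝ) ≤
      ∑ q ∈ (Icc 1 N).filter Nat.Prime, Real.log q * Fr E (N / q) := by
  have h1 : ∑ q ∈ (Icc 1 N).filter Nat.Prime, Real.log q * (Fr E (N / q) : ℝ) =
      ∑ q ∈ (Icc 1 N).filter Nat.Prime, ∑ m ∈ Ae E (N / q), Real.log q := by
    refine Finset.sum_congr rfl fun q _ => ?_
    rw [Finset.sum_const, nsmul_eq_mul, Fr_eq, mul_comm]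
  have h2 : ∑ q ∈ (Icc 1 N).filter Nat.Prime, ∑ m ∈ Ae E (N / q), Real.log q =
      ∑ m ∈ Ae E N, ∑ q ∈ (Icc 1 (N / m)).filter Nat.Prime, Real.log q := by
    apply Finset.sum_comm'
    intro q m
    simp only [mem_Ae, Finset.mem_filter, Finset.mem_Icc]
    constructor
    · rintro ⟨⟨⟨hq1, hqN⟩, hq⟩, ⟨hm1, hm2⟩, hf⟩
      have h3 : m * q ≤ N := (Nat.le_div_iff_mul_le (by omega)).1 hm2
      refine ⟨⟨⟨hq1, ?_⟩, hq⟩, ⟨hm1, ?_⟩, hf⟩
      · rw [Nat.le_div_iff_mul_le (by omega), mul_comm]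
        exact h3
      · nlinarith
    · rintro ⟨⟨⟨hq1, hq2⟩, hq⟩, ⟨hm1, hm2⟩, hf⟩
      have h3 : q * m ≤ N := (Nat.le_div_iff_mul_le (by omega)).1 hq2
      refine ⟨⟨⟨hq1, ?_⟩, hq⟩, ⟨hm1, ?_⟩, hf⟩
      · nlinarith
      · rw [Nat.le_div_iff_mul_le (by omega), mul_comm]
        exact h3
  rw [h1, h2]
  have hsub : Ae E (N / 2) ⊆ Ae E N := by
    intro m hm
    rw [mem_Ae] at hm ⊢
    exact ⟨⟨hm.1.1, hm.1.2.trans (Nat.div_le_self _ _)⟩, hm.2⟩
  refine le_trans (le_of_eq ?_) (Finset.sum_le_sum_of_subset_of_nonneg hsub (fun m _ _ =>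
    Finset.sum_nonneg fun q _ => Real.log_natCast_nonneg q))
  exact Finset.sum_congr rfl fun m _ => theta_nat _

theorem PE_anti (E : Finset ℕ) (M N : ℕ) (hE : ∀ p ∈ E, p.Prime) (h : M ≤ N) :
    PE E N ≤ PE E M := by
  unfold PE
  have hf : ∀ p ∈ E, 0 ≤ 1 - 1 / (p : ℝ) ∧ 1 - 1 / (p : ℝ) ≤ 1 := by
    intro p hp
    have hp2 : (2 : ℝ) ≤ p := by exact_mod_cast (hE p hp).two_le
    have h1 : 1 / (p : ℝ) ≤ 1 := by
      rw [div_le_one (by linarith)]
      linarith
    have h2 : 0 ≤ 1 / (p : ℝ) := by positivity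
    constructor <;> linarith
  have hsub : E.filter (· ≤ M) ⊆ E.filter (· ≤ N) := by
    intro p hp
    rw [Finset.mem_filter] at hp ⊢
    exact ⟨hp.1, hp.2.trans h⟩
  rw [← Finset.prod_sdiff hsub]
  have h1 : ∏ p ∈ (E.filter (· ≤ N)) \ (E.filter (· ≤ M)), (1 - 1 / (p : ℝ)) ≤ 1 :=
    Finset.prod_le_one (fun p hp => (hf p (Finset.mem_filter.1 (Finset.mem_sdiff.1 hp).1).1).1)
      (fun p hp => (hf p (Finset.mem_filter.1 (Finset.mem_sdiff.1 hp).1).1).2)
  have h2 : 0 ≤ ∏ p ∈ E.filter (· ≤ M), (1 - 1 / (p : ℝ)) :=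
    Finset.prod_nonneg fun p hp => (hf p (Finset.mem_filter.1 hp).1).1
  calc _ ≤ 1 * ∏ p ∈ E.filter (· ≤ M), (1 - 1 / (p : ℝ)) := mul_le_mul_of_nonneg_right h1 h2
    _ = _ := one_mul _

theorem PE_nonneg (E : Finset ℕ) (N : ℕ) (hE : ∀ p ∈ E, p.Prime) : 0 ≤ PE E N := by
  unfold PE
  refine Finset.prod_nonneg fun p hp => ?_
  have hp2 : (2 : ℝ) ≤ p := by exact_mod_cast (hE p (Finset.mem_filter.1 hp).1).two_le
  have h1 : 1 / (p : ℝ) ≤ 1 := by
    rw [div_le_one (by linarith)]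
    linarith
  linarith

/-- Module EB. -/
theorem hEB (hELU : StELU) (hS2 : StS2) : StEB := by
  classical
  obtain ⟨c, hc0, hc⟩ := theta_low
  obtain ⟨C₁, hC₁, hL⟩ := hELU
  obtain ⟨C, hC1, hS⟩ := hS2
  obtain ⟨η, hη⟩ : ∃ η : ℝ, η = min (1 / 20) (c / (16 * C)) := ⟨_, rfl⟩
  have hη0 : 0 < η := by rw [hη]; exact lt_min (by norm_num) (by positivity)
  have hη1 : η ≤ 1 / 20 := by rw [hη]; exact min_le_left _ _
  have hη2 : η ≤ c / (16 * C) := by rw [hη]; exact min_le_right _ _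
  obtain ⟨w₀, hw₀, hS⟩ := hS η hη0 hη1
  refine ⟨η, min (1 / 2) (c / (16 * C)), c / 8, max w₀ 100, hη0, hη1,
    lt_min (by norm_num) (by positivity), min_le_left _ _, by positivity,
    le_max_of_le_left hw₀, ?_⟩
  intro E w hE hw hms N hN1 hN2
  have hms1 : ms E (w ^ η) w ≤ 1 / 2 := hms.trans (min_le_left _ _)
  have hms2 : ms E (w ^ η) w ≤ c / (16 * C) := hms.trans (min_le_right _ _)
  have hw1 : w₀ ≤ w := (le_max_left _ _).trans hw
  have hw2 : 100 ≤ w := (le_max_right _ _).trans hw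
  have hN10 : (10 : ℝ) ≤ N := by
    refine le_trans ?_ hN1
    calc (10 : ℝ) = (100 : ℝ) ^ (1 / 2 : ℝ) := by
          rw [← Real.sqrt_eq_rpow, show (100 : ℝ) = 10 ^ 2 by norm_num, Real.sqrt_sq (by norm_num)]
      _ ≤ w ^ (1 / 2 : ℝ) := Real.rpow_le_rpow (by norm_num) hw2 (by norm_num)
  have hN10' : 10 ≤ N := by exact_mod_cast hN10
  have hS2 := hS E w N hE hw1 hms1 hN1 hN2
  have hP0 := PE_nonneg E N hE
  have hN0 : (0 : ℝ) < N := by linarith
  have hlN : 0 < Real.log N := Real.log_pos (by linarith)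
  -- Σ₁
  have hA := low2 E N
  have hB : c / 4 * N * Real.log N * PE E N ≤
      ∑ m ∈ Ae E (N / 2), Chebyshev.theta ((N / m : ℕ) : ℝ) := by
    have h1 : ∀ m ∈ Ae E (N / 2), c / 2 * N * (1 / (m : ℝ)) ≤
        Chebyshev.theta ((N / m : ℕ) : ℝ) := by
      intro m hm
      rw [mem_Ae] at hm
      have hm1 : 1 ≤ m := hm.1.1
      have hm2 : m * 2 ≤ N := (Nat.le_div_iff_mul_le (by norm_num)).1 hm.1.2
      have h2 : 2 ≤ N / m := by
        rw [Nat.le_div_iff_mul_le (by omega)]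
        omega
      refine le_trans ?_ (hc (N / m) h2)
      have h3 : (N : ℝ) ≤ m * ((N / m : ℕ) : ℝ) + m := by
        have h4 : N < m * (N / m) + m := by
          have := Nat.div_add_mod N m
          have h5 := Nat.mod_lt N (show 0 < m by omega)
          omega
        exact_mod_cast h4.le
      have hm0 : (0 : ℝ) < m := by exact_mod_cast (by omega : 0 < m)
      have h5 : (2 : ℝ) ≤ ((N / m : ℕ) : ℝ) := by exact_mod_cast h2
      have h6 : (N : ℝ) ≤ 2 * (m * ((N / m : ℕ) : ℝ)) := by nlinarith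
      rw [mul_one_div, div_le_iff₀ hm0]
      nlinarith
    have h7 : c / 2 * N * Ls E (N / 2) ≤
        ∑ m ∈ Ae E (N / 2), Chebyshev.theta ((N / m : ℕ) : ℝ) := by
      rw [Ls_eq, Finset.mul_sum]
      exact Finset.sum_le_sum h1
    have h8 := (hL E (N / 2) hE (by omega)).1
    have h9 := PE_anti E (N / 2) N hE (Nat.div_le_self _ _)
    have h10 : Real.log N / 2 ≤ Real.log ((N / 2 : ℕ) : ℝ) := by
      have h11 : (N : ℝ) ≤ ((N / 2 : ℕ) : ℝ) ^ 2 := by
        have h12 : N ≤ (N / 2) ^ 2 := by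
          have : 5 ≤ N / 2 := by omega
          have h13 : N ≤ 2 * (N / 2) + 1 := by omega
          nlinarith
        exact_mod_cast h12
      have h14 := Real.log_le_log hN0 h11
      rw [Real.log_pow] at h14
      push_cast at h14
      linarith
    have h15 : Real.log N / 2 * PE E N ≤ Ls E (N / 2) := by
      refine le_trans ?_ h8
      exact mul_le_mul h10 h9 hP0 (by linarith [hlN.le])
    calc c / 4 * N * Real.log N * PE E N = c / 2 * N * (Real.log N / 2 * PE E N) := by ring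
      _ ≤ c / 2 * N * Ls E (N / 2) := by gcongr
      _ ≤ _ := h7
  -- Σ₂
  have hD : ∑ q ∈ E.filter (· ≤ N), Real.log q * Fr E (N / q) ≤
      c / 8 * N * Real.log N * PE E N := by
    refine hS2.trans ?_
    have h1 : C * (η + ms E (w ^ η) w) ≤ c / 8 := by
      have h2 : η + ms E (w ^ η) w ≤ c / (8 * C) := by
        have : c / (8 * C) = c / (16 * C) + c / (16 * C) := by
          field_simp
          norm_num
        linarith
      calc C * (η + ms E (w ^ η) w) ≤ C * (c / (8 * C)) := by gcongr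
        _ = c / 8 := by field_simp
    calc C * N * Real.log N * PE E N * (η + ms E (w ^ η) w)
        = (C * (η + ms E (w ^ η) w)) * (N * Real.log N * PE E N) := by ring
      _ ≤ c / 8 * (N * Real.log N * PE E N) := by gcongr
      _ = _ := by ring
  have hF := low1 E N hE
  have hsplit : ∑ q ∈ (Icc 1 N).filter Nat.Prime, Real.log q * (Fr E (N / q) : ℝ) =
      ∑ q ∈ ((Icc 1 N).filter Nat.Prime).filter (· ∈ E), Real.log q * (Fr E (N / q) : ℝ) +
      ∑ q ∈ ((Icc 1 N).filter Nat.Prime).filter (· ∉ E), Real.log q * (Fr E (N / q) : ℝ) :=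
    (Finset.sum_filter_add_sum_filter_not _ _ _).symm
  have hEq : ((Icc 1 N).filter Nat.Prime).filter (· ∈ E) = E.filter (· ≤ N) := by
    ext q
    simp only [Finset.mem_filter, Finset.mem_Icc]
    exact ⟨fun h => ⟨h.2, h.1.1.2⟩, fun h => ⟨⟨⟨(hE q h.1).one_lt.le, h.2⟩, hE q h.1⟩, h.1⟩⟩
  rw [hEq] at hsplit
  have hfin : c / 8 * N * Real.log N * PE E N ≤ Fr E N * Real.log N := by
    have h1 : c / 4 * N * Real.log N * PE E N = 2 * (c / 8 * N * Real.log N * PE E N) := by ring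
    linarith
  have h2 : c / 8 * N * Real.log N * PE E N = (c / 8 * N * PE E N) * Real.log N := by ring
  rw [h2] at hfin
  exact le_of_mul_le_mul_right hfin hlN

end Pool.Agent.Helper36.JS
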